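import Pool.Agent.ShghHL.Spec

/-!
# ShghHL/Arith: elementary facts about the window function
-/

namespace ShghHL

open ShghJ ShghC

theorem ph_nonneg (E : ℕ) (x : ℤ) : 0 ≤ ph E x := by unfold ph; omega

theorem le_ph (E : ℕ) (x : ℤ) : x ≤ ph E x := by unfold ph; omega

theorem ph_mono (E : ℕ) {x y : ℤ} (h : x ≤ y) : ph E x ≤ ph E y := by unfold ph; omega

theorem ph_succ (E : ℕ) (x : ℤ) : ph E (x + 1) ≤ ph E x + 1 := by unfold ph; omega

theorem ph_zero (E : ℕ) {x : ℤ} (h : x ≤ -E) : ph E x = 0 := by unfold ph; omega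

theorem ph_neg (E : ℕ) {x : ℤ} (h : -(E : ℤ) ≤ x) (h' : x ≤ 0) : ph E x = x + E := by
  unfold ph; omega

theorem ph_mid (E : ℕ) {x : ℤ} (h : 0 ≤ x) (h' : x ≤ E) : ph E x = E := by unfold ph; omega

theorem ph_big (E : ℕ) {x : ℤ} (h : (E : ℤ) ≤ x) : ph E x = x := by unfold ph; omega

end ShghHL
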