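import Pool.Agent.ShghC.SpecG

/-!
# ShghHL: homogeneous systems with `s ≥ 10^4 m^(2/3)` points (statements, with proofs in the docstrings)

THEOREM. In characteristic `0`, if `10^12 m^2 ≤ s^3` then `s` generic points of multiplicity `m`
impose independent conditions on the curves of degree `d`, or there is no such curve, for every `d`.

METHOD. Points are added along a generic line (`Y = X`), `b` points at a time; the curves of
degree `d = u + τ` with the old points `A` and the new points `B = m^b` have `τ` 'full rows'. The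
strip problem `Sf 1 k d` (`k = τ - 2, .., τ + 1`) with `B = m^b` is transformed by elementary
transformations into a box with points of multiplicity `μ = k - m`, about `m / √s`, so that all errors
are `O(μ^2)`, less than `1/4` of the gap `u + 1` between triangular numbers when `s^3 ≥ C m^2`.

All modules of `Pool.Agent.ShghC` are proved, with the names `ShghC.m*`, `ShghC.t*`
(`Pool.Agent.ShghC.MainG`, `Pool.Agent.ShghC.MainX`): `tNSemi`, `mNInv`, `mNCons`, `tNClo`, `mNSimple`,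
`mProj`, `mRaise`, `mGlueR`, `mCloseR`, `mStA`, `mStB`, `mFib1`, `mPE`, `mCollN`, `mMacN`, `mStripG`,
`tWinG`, `tReduce`, `hN_tri`, `hF_succ_le`, `hF_exact_mono`, `ShghJ.hfun_hF`, `HFun.chi_le`, ...
A module here may import them, or take the statements `S_*` as hypotheses.
-/

namespace ShghHL

open MvPolynomial ShghJ ShghC

universe u

/-! ## Definitions -/

/-- The window function: `0` for `x ≤ -E`, `x + E` for `-E ≤ x ≤ 0`, `E` for `0 ≤ x ≤ E`, `x` for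
`E ≤ x`. Monotone, `ph E (x + 1) ≤ ph E x + 1`, `max 0 x ≤ ph E x`. -/
def ph (E : ℕ) (x : ℤ) : ℤ := max 0 (min (x + E) (max x E))

/-- Generic points of multiplicities `S` are non-special outside of the window `E`, in all degrees. -/
def UU (F : Type*) [Field F] (E : ℕ) (S : Multiset ℕ) : Prop :=
  ∀ d : ℕ, (hF F d S : ℤ) ≤ ph E ((T (d + 1) : ℤ) - TT S)

/-- The same for the polynomials with exponents `i + k' ≤ d`, `k' ≤ k`. -/
def PW (F : Type*) [Field F] (E : ℕ) (B : Multiset ℕ) (k d : ℕ) : Prop :=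
  (hN F (Sf 1 k d) B : ℤ) ≤ ph E (((k : ℤ) + 1) * (d + 1) - T k - TT B)

/-- The region with at most `r k` exponents in the row `k`. -/
noncomputable def Rg (d : ℕ) (r : ℕ → ℕ) : Finset (Fin 2 →₀ ℕ) :=
  boxSet d fun i k => i + k ≤ d ∧ i < r k

/-- `v` has distance at least `E` from the triangular numbers. -/
def Al (E v : ℕ) : Prop := ∃ u, E + v ≤ T (u + 1) ∧ T (u + 1) + E ≤ v + (u + 1)

/-! ## Geometry -/

/-- ROWGLUE: degeneration of the points `B` to the line `Y = X`. PROOF. As `ShghC.tGlueR`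
(`Pool.Agent.ShghC.GlueR`) with `a = 1` and the region `N' = Rg d r`, `r k = hF F (d-k) A -
hF F (d-(k+1)) A` for `k ≤ t`, `r k = 0` for `k > t`. By `glueRN` (with `θ = d`) it suffices to prove
`Reg`: every `e` in `Lx (...)` is in `N'`. `S_XSide` (with `τ := t`, `(t + 1) * 1 ≤ d`, `hX' = 0` as in
`tGlueR`) gives `e 1 ≤ t`. `tXRow` gives `e 0 < r (e 1)`. `e 0 + e 1 ≤ d`: from `tXRow` and
`hF F (d-k) A ≤ hF F (d-(k+1)) A + (d-k+1)` (`ShghC.hF_succ_le`), or from `S_RowDiv`, `S_RowZ` as in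
`XSide`. Then from `1 ≤ hN (A + B) → 1 ≤ hN N' B` for all `B` to the inequality with `glue_rep'`
(simple points), as at the end of `tGlueR`. `hN F (Trap d d) S = hF F d S`: `ShghC.hN_tri`. -/
def S_RowGlue : Prop := ∀ (F : Type u) [Field F] [CharZero F] (d t : ℕ) (A B : Multiset ℕ),
  t < d → hF F (d - (t + 1)) A = 0 →
  hF F d (A + B) ≤ hN F (Rg d fun k =>
    if k ≤ t then hF F (d - k) A - hF F (d - (k + 1)) A else 0) B

/-- ROWRAISE: the raising operator in every row. PROOF. Over `K = UF F`, points `P i = up i`, and the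
derivation `D` of `S_Raise` with `n = 1` (`D (P i 0) = P i 0 ^ 2`, `D (P i 1) = P i 0 * P i 1`; see the
proof of `tRaise`). Let `R_k` = `Rg d r` restricted to the rows `< k`, `V_k = LN (Sf 1 k d)`. For
`k ≤ d`, adding to `R_k` the exponents `(t, k)`, `t = 0, .., min (r k) (d-k+1) - 1`, one after
the other raises the dimension by `0` or `1` (kernel of one coefficient, as `St_step`), and if it
raises then there is `f ∈ LN` with exponents in `R_k ∪ {(i, k) : i ≤ t}` and with coefficient `≠ 0`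
at `(t, k)`; `f ∈ LN (St 1 k d (t+1))`, so `RaiseAux.Ep μ P 1 k d t` holds. By `RaiseAux.Ep_succ`
the set of `t ≤ d - k` with `Ep` is a final segment of `[0, d-k]`, and its number of elements is
`dim V_k - dim V_(k-1) = y_k` (`hstep`, `hup` in `RaiseAux.main`: `St 1 k d 0` = the rows `< k`,
`St 1 k d (d-k+1) = Sf 1 k d`). So the row `k` contributes at most `r k + y_k - (d-k+1)`
(truncated). -/
def S_RowRaise : Prop := ∀ (F : Type u) [Field F] [CharZero F] (d : ℕ) (r : ℕ → ℕ)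
  (B : Multiset ℕ), hN F (Rg d r) B ≤ ∑ k ∈ Finset.range (d + 1),
    (r k + (hN F (Sf 1 k d) B - (if k = 0 then 0 else hN F (Sf 1 (k - 1) d) B)) - (d - k + 1))

/-- ROW3: at most three rows contribute. PROOF. `d = u + τ`. `S_RowGlue` with `t = τ + 1`
(`d - (t + 1) = u - 2`), `S_RowRaise`. For `k ≥ τ + 2`: `r k = 0` and `y_k ≤ d - k + 1` (the rows `≤ k`
without the rows `< k` have `d - k + 1` exponents: `hN F (Sf 1 k d) B ≤ hN F (Sf 1 (k-1) d) B +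
(d-k+1)`, a consequence of `RaiseAux.St_step` / the functional lemma, or of `S_RowRaise`'s proof), so
the term is `0`. For `k ≤ τ - 2`: `y_k = 0` (`hN F (Sf 1 k d) B ≤ hN F (Sf 1 (τ-2) d) B = 0`, `LN` is
monotone in the exponents) and `r k ≤ d - k + 1` (`ShghC.hF_succ_le`), the term is `0`. The rows
`τ - 1`, `τ`, `τ + 1` give the three terms. -/
def S_Row3 : Prop := ∀ (F : Type u) [Field F] [CharZero F] (v τ : ℕ) (A B : Multiset ℕ),
  2 ≤ τ → 2 ≤ v → hF F (v - 2) A = 0 → hN F (Sf 1 (τ - 2) (v + τ)) B = 0 →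
  hF F (v + τ) (A + B) ≤
    (hF F (v + 1) A - hF F v A + hN F (Sf 1 (τ - 1) (v + τ)) B - (v + 2)) +
    (hF F v A - hF F (v - 1) A +
      (hN F (Sf 1 τ (v + τ)) B - hN F (Sf 1 (τ - 1) (v + τ)) B) - (v + 1)) +
    (hF F (v - 1) A +
      (hN F (Sf 1 (τ + 1) (v + τ)) B - hN F (Sf 1 τ (v + τ)) B) - v)

/-- ORG: a generic point may be moved to the origin. `N` is closed under translations. PROOF. Over
`K = UF F`. `≤`: `S_NSemi` (generic points `up i` to the special points `(0, 0), up 0, up 1, ..`;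
see `ShghC.elm_special` in `Pool.Agent.ShghC.Elm1`) and multiplicity `≥ m` at the origin means
exponents `e 0 + e 1 ≥ m` (`elm_origin`). `≥`: `S_NCons`: `hN F N (m ::ₘ B) = finrank` of the members of
`LN N` with multiplicities `B` at `up (i + 1)` and `≥ m` at `up 0`. The translation
`f ↦ ShghE.tfShift (up 0 0) (up 0 1) f = f (X + x0, Y + y0)` maps this space bijectively to the
polynomials with exponents in `N`, `e 0 + e 1 ≥ m`, and multiplicities `B` at the points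
`up (i+1) - up 0` (`N` is closed under lowering the exponents, so it is preserved by the translation
and its inverse; compare `Pool.Agent.ShghL.Tr`), whose dimension is at least the generic one:
`S_NSemi`. -/
def S_Org : Prop := ∀ (F : Type u) [Field F] (N : Finset (Fin 2 →₀ ℕ)),
  (∀ i k, ex (i + 1) k ∈ N → ex i k ∈ N) → (∀ i k, ex i (k + 1) ∈ N → ex i k ∈ N) →
  ∀ (m : ℕ) (B : Multiset ℕ),
    hN F N (m ::ₘ B) = hN F (N.filter fun e => m ≤ e 0 + e 1) B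

/-- ELMN: elementary transformation of a region. PROOF. As `ShghC.tElm0` (`Pool.Agent.ShghC.Elm0`).
`S_NSemi`: the generic dimension is at most the dimension for the special points
`Q_j = (x_j, x_j / y_j)`, `(x_j, y_j) = up j` (all `≠ 0`, `elm_up_ne`). Let `f ∈ LN N ν Q`,
`f = ∑ f_ik X^i Y^k`, and `f' = ∑ f_ik X^(i+k-m) Y^(t-k)`, with exponents in `N'`; the map
`f ↦ f'` is linear and injective (`(i, k) ↦ (i+k-m, t-k)` is injective for `k ≤ t`, `m ≤ i + k`).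
`X^m f' = Y^t f (X, X / Y)`: if `f` has degree `≤ t` in `Y` and multiplicity `ν` at `(x, x/y)`, then
`X^m f'` has multiplicity `ν` at `(x, y)` (`elm0_mult`, with `m := t`), and `S_Unit` (`x ≠ 0`). -/
def S_ElmN : Prop := ∀ (F : Type u) [Field F] (N N' : Finset (Fin 2 →₀ ℕ)) (m t : ℕ)
  (B : Multiset ℕ),
  (∀ e ∈ N, e 1 ≤ t ∧ m ≤ e 0 + e 1 ∧ ex (e 0 + e 1 - m) (t - e 1) ∈ N') →
  hN F N B ≤ hN F N' B

/-- SWAP: exchange of the variables. PROOF. `S_NSemi`: the generic dimension is at most the dimension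
for the special points `Q_j = (y_j, x_j)`, `(x_j, y_j) = up j`; `f ↦ f (Y, X)` (`MvPolynomial.rename
(Equiv.swap 0 1)`) is an injective linear map from `LN N ν Q` to `LN N' ν up`. -/
def S_Swap : Prop := ∀ (F : Type u) [Field F] (N N' : Finset (Fin 2 →₀ ℕ)) (B : Multiset ℕ),
  (∀ e ∈ N, ex (e 1) (e 0) ∈ N') → hN F N B ≤ hN F N' B

/-- ELMG: elementary transformations of the strips `Sf 1 k e` and `Sf 0 k e` (exponents `k' ≤ k`,
`i + k' ≤ e`, respectively `k' ≤ k`, `i ≤ e`) at a point of multiplicity `m ≤ k`. PROOF. `S_Org` for all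
four strips (they are closed under lowering the exponents), and `S_ElmN` with `t = k`, in both
directions: `(i, k') ↦ (i + k' - m, k - k')` maps `Sf 1 k e`, `m ≤ i + k'` to `Sf 0 k (e-m)`,
`k - m ≤ i + k'`, and the inverse is of the same form with `k - m` in place of `m`. The same for
`Sf 0 k e` and `Sf 1 k (e + k - m)`. If `e < m` there are no exponents. Monotonicity of `hN` in the region
is a special case of the inclusion `LN N ≤ LN N'`. -/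
def S_ElmG : Prop := ∀ (F : Type u) [Field F] (k m e : ℕ) (B : Multiset ℕ), m ≤ k →
  (m ≤ e → hN F (Sf 1 k e) (m ::ₘ B) = hN F (Sf 0 k (e - m)) ((k - m) ::ₘ B)) ∧
  (e < m → hN F (Sf 1 k e) (m ::ₘ B) = 0) ∧
  hN F (Sf 0 k e) (m ::ₘ B) = hN F (Sf 1 k (e + k - m)) ((k - m) ::ₘ B)

/-- STRIPG0: the box (`n = 0`). PROOF. `h e B = hN F (Sf 0 τ e) B = hN F (Sf 1 τ (e + τ)) (τ ::ₘ B)`
(`S_ElmG` with `m = 0`, and `hN F N (0 ::ₘ B) = hN F N B`, `S_MacN`). So the fields `zero`, `anti`,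
`mac1`, `mac2`, `coll2` of `HG` follow from those of `Sf 1 τ (e + τ)` (`S_MacN` and `S_CollN`, or
`S_StripG` with `n = 1`) for the multiset `τ ::ₘ S` (permute the points with `Multiset.cons_swap`).
`big`: the elements of `Sf 0 τ e` have degree `≤ e + τ` (see `stripG_deg` in `Pool.Agent.ShghC.StripG`
for `n ≥ 1`). `empty`, `mono`, `fib`, `fib0`: `S_StA`, `S_StB`, `S_Fib1` hold for `n = 0`. -/
def S_StripG0 : Prop := ∀ (F : Type u) [Field F] [CharZero F] (τ : ℕ),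
  StripG 0 τ (fun e B => hN F (Sf 0 τ e) B)

/-- TRA: all elementary transformations, `k = m + μ`, `b = 2 j + 1` points. PROOF. Induction on `j`,
for all `e` and `B`, with `S_ElmG`. `j = 0`: first and second claim of `S_ElmG`. `j + 1`: write the
multiset as `m ::ₘ m ::ₘ (replicate (2j+1) m + B)`. If `e < m`: `hN = 0` (both claims are clear).
Otherwise `hN F (Sf 1 k e) (m, m, R) = hN F (Sf 0 k (e-m)) (μ, m, R) = hN F (Sf 1 k (e - m + μ))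
(μ, μ, R)` (the third claim, at the point `m`; use `Multiset.cons_swap`), and the induction hypothesis
for `e - m + μ` and `μ ::ₘ μ ::ₘ B`. -/
def S_Tra : Prop := ∀ (F : Type u) [Field F] (m μ j e : ℕ) (B : Multiset ℕ),
  ((j + 1) * m ≤ e + j * μ → hN F (Sf 1 (m + μ) e) (Multiset.replicate (2 * j + 1) m + B) ≤
    hN F (Sf 0 (m + μ) (e + j * μ - (j + 1) * m)) (Multiset.replicate (2 * j + 1) μ + B)) ∧
  (e + j * μ < (j + 1) * m →
    hN F (Sf 1 (m + μ) e) (Multiset.replicate (2 * j + 1) m + B) = 0)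

/-- THIN: strips with `k = m`, `m - 1`, `m + 1`, exact. `b = 2 n + 1` points.
PROOF. (1) `S_Tra` with `μ = 0`, `j = n` (`B = 0`): if `(n+1) m ≤ e` the bound is
`hN F (Sf 0 m (e - (n+1) m)) (replicate _ 0)` = the number of exponents `(m+1)(e - (n+1) m + 1)` (`S_StA`,
multiplicity `0` is no condition). (2) `S_Fib1` (`τ = m - 1`, point of multiplicity `m = (m-1) + 1`)
applied to all `b` points: `hN F (Sf 1 (m-1) e) (replicate b m + R) ≤ hN F (Sf 1 (m-1) (e-b))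
(replicate b (m-1) + R)` if `b ≤ e` and `= 0` otherwise (as `pe_iv` in `Pool.Agent.ShghC.PE`), then
`S_Tra` with `m - 1` in place of `m` and `μ = 0`: `e - b < (n+1)(m-1)`. (3) `S_Tra` with
`μ = 1`: `hN F (Sf 0 (m+1) L) (replicate b 1)`, `L = e + n - (n+1) m`, simple points: `S_NSimple`
and `S_StA`; if `e + n < (n+1) m` it is `0`. -/
def S_Thin : Prop := ∀ (F : Type u) [Field F] [CharZero F] (m n e : ℕ), 1 ≤ m →
  hN F (Sf 1 m e) (Multiset.replicate (2 * n + 1) m) ≤ (m + 1) * (e + 1 - (n + 1) * m) ∧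
  (e + 1 ≤ (n + 1) * m + n →
    hN F (Sf 1 (m - 1) e) (Multiset.replicate (2 * n + 1) m) = 0) ∧
  hN F (Sf 1 (m + 1) e) (Multiset.replicate (2 * n + 1) m) ≤
    (m + 2) * (e + n + 1 - (n + 1) * m) - (2 * n + 1)

/-- XL: gluing along a line when `A` is exact and critical. PROOF. `S_GlueR` with `a = 1`
(`d = v + τ`, `T (1 - 2) = T 0 = 0`), `S_Raise` with `n = 1`, `δ = v + τ`, `ρ = hF F v A ≤ v + 1`
(`ShghC.hF_succ_le` from `hF F (v-1) A = 0`), `St 1 τ δ 0 = Sf 1 (τ-1) δ` (`closeR_St_zero`): see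
`ShghC.tCloseR`. -/
def S_XL : Prop := ∀ (F : Type u) [Field F] [CharZero F] (v τ : ℕ) (A B : Multiset ℕ),
  1 ≤ τ → 1 ≤ v → hF F v A + TT A = T (v + 1) → hF F (v - 1) A = 0 →
  hF F (v + τ) (A + B) ≤ max (hN F (Sf 1 (τ - 1) (v + τ)) B)
    (hF F v A + hN F (Sf 1 τ (v + τ)) B - (v + 1))

/-- GTOF: all degrees from two degrees. PROOF. `ShghC.hF_exact_mono` and `HFun.chi_le`
(`ShghJ.hfun_hF`), and `hF F j S ≤ hF F d S` for `j ≤ d` (`S_StB`, or inclusion of the spaces). -/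
def S_GTof : Prop := ∀ (F : Type u) [Field F] [CharZero F] (d : ℕ) (S : Multiset ℕ),
  hF F (d + 1) S + TT S ≤ T (d + 2) → hF F d S = 0 → GT F S

/-- SQUARES: `n^2` points of multiplicity `m`, `n ≤ m`. PROOF. Induction on `n`, `n = 0`: no points.
`n = 1`: one point: `hF F j {m} = T (j+1) - T m` (`HFun.small` for `m ≤ j + 1`, `HFun.big` otherwise).
Step from `n` to `n + 1` (`1 ≤ n`, `n + 1 ≤ m`), `A = replicate (n^2) m`, `B = replicate (2n+1) m`,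
`GT F A`. Let `n` be odd, `v = n m + (n-3)/2` (`n = 1`: `v = m - 1`), `x = T (v+1) - n^2 T m =
(n^2-1)/8 ≤ v`; so `hF F v A = x`, `hF F (v-1) A = 0` (as `T v ≤ n^2 T m`). Degree
`d = v + m + 1`: `S_XL` with `τ = m + 1`, `S_Thin` (1), (3): `hN (Sf 1 m d) B ≤ (m+1)(n+1)/2`,
`hN (Sf 1 (m+1) d) B ≤ (m+2)(3n+1)/2 - (2n+1)`, and `x + this - (v+1) = (n+1)(m+1)/2 + (n^2-1)/8 =
T (d+1) - (n+1)^2 T m`. Degree `d = v + m`: `τ = m`, `hN (Sf 1 (m-1) d) B = 0`,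
`hN (Sf 1 m d) B ≤ (m+1)(n-1)/2` and `x + (m+1)(n-1)/2 ≤ v + 1`. Let `n` be even, `v = n m + n/2 - 1`,
`x = T (v+1) - n^2 T m = n(2m+1)/4 + n^2/8 ≤ v`. Degree `d = v + m`: `τ = m`,
`hN (Sf 1 (m-1) d) B = 0`, `hN (Sf 1 m d) B ≤ (m+1) n/2`, `x + (m+1) n/2 - (v+1) = n(n+2)/8 =
T (d+1) - (n+1)^2 T m`. Degree `d = v + m - 1`: `τ = m - 1 ≥ 1`, both `hN (Sf 1 (m-2) d) B` and
`hN (Sf 1 (m-1) d) B` are `0`, and `x ≤ v + 1`. Then `S_GTof`. (In the computations use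
`2 T j = j (j+1)` and write `n = 2 a + 1` or `n = 2 a`.) -/
def S_Squares : Prop := ∀ (F : Type u) [Field F] [CharZero F] (m n : ℕ), 1 ≤ m → n ≤ m →
  GT F (Multiset.replicate (n ^ 2) m)

/-- COREK: a big point in place of `(2a)^2` points. PROOF. `b = 4 a + 1 = 2 n + 1`, `n = 2 a`. Degree
`d + 1 = K + m`: `S_Proj` with `θ = m` (`Trap (K+m) m = Sf 1 m (K+m)`: `Finset.ext`, `mem_Trap`,
`mem_Sf`): `hF F (K+m) (K ::ₘ B) = hN F (Sf 1 m (K+m)) B ≤ (m+1)(K+m+1 - (n+1) m)` (`S_Thin` (1)),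
which is `T (K+m+1) - T K - (4a+1) T m` (`n m ≤ K + 1`). Degree `d = K + m - 1`: `S_Proj` with
`θ = m - 1`: `hN F (Sf 1 (m-1) (K+m-1)) B = 0` by `S_Thin` (2), as `K + m ≤ (n+1) m + n`. `S_GTof`. -/
def S_CoreK : Prop := ∀ (F : Type u) [Field F] [CharZero F] (m a K : ℕ), 1 ≤ a → 2 * a ≤ m →
  2 * a * m + a ≤ K + 1 → K ≤ 2 * a * m + a →
  GT F (K ::ₘ Multiset.replicate (4 * a + 1) m)

/-! ## Windows -/

/-- PWIN: the window of the strip `Sf 1 (m + μ) e` with `b = 2 j + 1` points of multiplicity `m`.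
PROOF. `k = m + μ`. `S_Tra` (`B = 0`): `hN = 0` or, with `L = e + j μ - (j+1) m`, `hN ≤ g L :=
hN F (Sf 0 k L) (replicate b μ) = hN F (Sf 0 L k) (replicate b μ)` (`S_Swap`). Put `π = (k+1)(L+1) -
b T μ`; the identity `(k+1)(e+1) - T k - b T m = π` holds (in `ℤ`). `g` is monotone in `L`
(inclusion). `S_StripG0` and `S_WinG` with `n = 0`, `τ = L`, `M = μ`, `e = k` (`2 μ ≤ k`): for `3 μ ≤ L`:
`1 ≤ g L → 2 b T μ + 2 ≤ 2 (L+1)(k+1) + μ (L + 4 μ)` and `2 b T μ + (μ-1)(2L+7μ+4) < 2 (L+1)(k+1) →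
g L = π`. (a) `g (3μ) = 0` by the third hypothesis, so `g L = 0` for `L ≤ 3 μ`. (b) `L ≥ 3 μ`, `π ≤ -V`:
`(L+1)(k+1) ≤ b T μ ≤ Q (k+1)`, so `L + 1 ≤ Q`, `μ (L + 4μ) ≤ 2 V ≤ -2 π`: `g L = 0`. (c) `L ≥ 3 μ`,
`π ≥ W` (`W ≥ 1`): `g L = π`: if `L + 1 ≤ Q` then `(μ-1)(2L+7μ+4) ≤ μ (2Q+7μ+2) ≤ (20/11) W < 2 π`; if
`L + 1 = Q + s` then `π ≥ s (k+1) ≥ 20 s μ` and `(μ-1)(2L+7μ+4) ≤ μ (2Q+7μ+2) + 2 s μ ≤
(20/11 + 1/10) π < 2 π`. (d) `L ≥ 3μ`, `-V < π < W`: the least `L' ≥ L` with `(k+1)(L'+1) - b T μ ≥ W`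
has this number `< W + k + 1`, and `g L ≤ g L' ≤ W + k`, which is at most `ph E π` as
`V + W + k + 1 ≤ E`. In (a), (b) use `0 ≤ ph E π`, in (c) `π ≤ ph E π`. -/
def S_PWin : Prop := ∀ (F : Type u) [Field F] [CharZero F] (m μ j E V W Q : ℕ),
  1 ≤ μ → 20 * μ ≤ m + μ + 1 →
  2 * (m + μ + 1) * (3 * μ + 1) + 7 * μ ^ 2 + 2 ≤ (2 * j + 1) * (μ * (μ + 1)) →
  (2 * j + 1) * T μ ≤ Q * (m + μ + 1) → μ * (Q + 4 * μ) ≤ 2 * V →
  11 * (μ * (2 * Q + 7 * μ + 2)) ≤ 20 * W → V + W + (m + μ) + 1 ≤ E →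
  ∀ e, PW F E (Multiset.replicate (2 * j + 1) m) (m + μ) e

/-- PNUM. PROOF. `S_PWin` with `Q = 17 (μ+1)`, `V = 11 μ^2 + 9 μ`, `W = 23 μ^2 + 20 μ`. Let
`b = 2 j + 1`. `500 μ ≤ n μ ≤ 16 m` gives `20 μ ≤ m`. Third hypothesis of `S_PWin`:
`b μ (μ+1) ≥ (2n+15)(μ^2+μ) ≥ 6 m μ + 6 m + 15 μ^2 + 15 μ` and `2 (m+μ+1)(3μ+1) + 7 μ^2 + 2 =
6 m μ + 2 m + 13 μ^2 + 8 μ + 4`. Fourth: `b μ ≤ (2n+29) μ ≤ 32 m + 29 μ ≤ 33 m`, so
`2 b T μ = b μ (μ+1) ≤ 33 m (μ+1) ≤ 2 * 17 (μ+1)(m+μ+1)`. Fifth: `21 μ^2 + 17 μ ≤ 22 μ^2 + 18 μ`. Sixth: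
`11 (41 μ^2 + 36 μ) = 451 μ^2 + 396 μ ≤ 460 μ^2 + 400 μ`. -/
def S_PNum : Prop := ∀ (F : Type u) [Field F] [CharZero F] (m n μ j E : ℕ),
  500 ≤ n → 2 * n + 15 ≤ 2 * j + 1 → 2 * j + 1 ≤ 2 * n + 29 → 1 ≤ μ →
  3 * m ≤ μ * n → μ * n ≤ 16 * m → 34 * μ ^ 2 + 30 * μ + m + 1 ≤ E →
  ∀ e, PW F E (Multiset.replicate (2 * j + 1) m) (m + μ) e

/-- NUMSTEP: the number of rows of a step. Pure inequality. `N = n + 1`, `P = d + 1`, `R = v + 1`,
`τ = d - v`, `q2 = q + D`, `b = 2 n + 1 + D`. PROOF. `q2 ≤ 11 N` (from `3 q2 ≤ (D+2)(n+2)`, `D ≤ 30`).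
(a) `10 P ≤ 11 N m`: otherwise `P^2 + P = (N^2 + q2) m (m+1) + 2 (σ + χ) ≤ (N^2 + 11 N) m (m+1) +
2 (N m + P + N m / 8 + P)` contradicts `P (P - 3) ≥ (11/10) N m ((11/10) N m - 3)`; in the same way
`10 R ≤ 11 N m` (here `n^2 + q ≤ N^2 + 11 N`, `σ ≤ N m + P ≤ (21/10) N m`, `x ≤ R`).
(b) third claim: `(v+2)^2 ≥ (v+1)(v+2) ≥ (n^2+q) m (m+1) - 2 N m ≥ (n m)^2`.
(c) Subtracting the two equations: `τ (d + v + 3) = b m (m+1) + 2 (χ - x)`.
(d) `2 N (v+2) ≥ m (2 N n + q - 31)`: otherwise `4 N^2 (v+2)^2 < m^2 (2Nn + q - 31)^2 ≤ 4 N^2 m^2 (n^2 +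
q)` (expand; `q ≤ 11 N`), but `(v+2)^2 ≥ (n^2+q) m^2` by the estimate in (b).
(e) Second claim: if `(τ + 1 - m) N ≥ 16 m + 1` then `N τ ≥ N m + 16 m - N =: t1`, and
`N^2 τ (2v + 3 + τ) ≥ t1 (m (2 N n + q - 31) - N + t1)`, but by (c), (a) it is
`≤ N^2 ((2 N + 29) m (m+1) + 3 N m)`. The coefficient of `m^2`: on the left
`(N+16)(2 N^2 - N + q - 15) = 2 N^3 + 31 N^2 + (q - 31) N + 16 q - 240`, on the right `2 N^3 + 29 N^2`;
the difference is at least `(19/10) N^2`, and all other terms are at most `20 N^3 m`; `m ≥ 1000 N`.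
(f) `2 N (v+1) ≤ (m+1)(2 N n + q2)`: otherwise `(v+1)^2 > (m+1)^2 (n^2 + q2 n / N) ≥ (m+1)^2 (n^2 + q)`
(as `q2 ≤ D N`), but `(v+1)^2 ≤ (n^2+q) m (m+1) + 6 N m` (from (a)) and `(n^2+q)(m+1) > 6 N m`.
(g) First claim: if `(τ - 2 - m) N < 3 m` then `N τ < t2 := N m + 3 m + 2 N`, and (if `τ ≥ 0`)
`N^2 τ (2 v + 3 + τ) ≤ t2 ((m+1)(2 N n + q2) + N + t2)`, and by (c), (a) it is
`≥ N^2 ((2 N - 1 + D) m (m+1) - 5 N m)` (in particular `τ > 0`). The coefficient of `m^2`: left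
`(N+3)(2 N^2 - N + q2 + 3) = 2 N^3 + 5 N^2 + q2 N + 3 q2 + 9`, right `2 N^3 + (D - 1) N^2`; with
`3 q2 ≤ (D+2)(N+1)` the difference is at least `(39/10) N^2`; all other terms are at most `20 N^3 m`.
(Checked by computer: the claims hold with `4.98` and `15.01` in place of `3`, `16`. Hint for Lean: put
`m = 1000 N + m'`, `N = 1001 + N'` and let `nlinarith`/`positivity` check the expanded polynomials, or
prove the estimates step by step with products of the bounds.) -/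
def S_NumStep : Prop := ∀ m n q D E σ x χ d v : ℤ, 1000 ≤ n → 1000 * (n + 1) ≤ m → 0 ≤ q →
  16 ≤ D → D ≤ 30 → 3 * (q + D) ≤ (D + 2) * (n + 2) → 0 ≤ E → 8 * E ≤ (n + 1) * m →
  0 ≤ d → 0 ≤ v →
  (d + 1) * (d + 2) = ((n + 1) ^ 2 + q + D) * (m * (m + 1)) + 2 * (σ + χ) →
  (v + 1) * (v + 2) = (n ^ 2 + q) * (m * (m + 1)) + 2 * (σ + x) →
  -((n + 1) * m) ≤ σ → σ ≤ (n + 1) * m + (d + 1) → 0 ≤ x → x ≤ v →
  -(E + d + 2) ≤ χ → χ ≤ E + d + 1 →
  3 * m ≤ (d - v - 2 - m) * (n + 1) ∧ (d - v + 1 - m) * (n + 1) ≤ 16 * m ∧ n * m ≤ 2 * v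

/-- STEPW: the windows in one step, from `n^2 + q` to `(n+1)^2 + q + D` points; `E = c m / 8`.
PROOF. `σ = TT A + i - (n^2 + q) T m`, `x = T (v+1) - TT A - i`, `χ = T (d+1) - TT A - i - (2n+1+D) T m`,
`2 T j = j (j+1)`: `S_NumStep` (with `E = c m / 8`, `c ≤ n`). So `v ≥ n m / 2 ≥ 4 E`, `v ≥ 2`,
`v + 2 ≤ d`, and for `d - v - 2 ≤ k ≤ d - v + 1`: `μ = k - m ≥ 1`, `3 m ≤ μ (n+1) ≤ 16 m`. `S_PNum` with
`n + 1` in place of `n`, `2 j + 1 = 2 n + 1 + D` (`D` even). `E`: `μ c ≤ μ (n+1) ≤ 16 m`, so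
`c^2 (34 μ^2 + 30 μ + m + 1) ≤ 8704 m^2 + 480 m c + (m + 1) c^2`, and `8 (8704 m^2 + 480 m c + (m+1) c^2) +
8 c^2 ≤ c^3 m` as `c^3 ≥ 10^5 m`, `c ≥ 1000`. (Note `c ≥ 10^4` from `1000 (n+1) ≤ m`, `10^5 m ≤ c^3`.) -/
def S_StepW : Prop := ∀ (F : Type u) [Field F] [CharZero F] (m n q D c : ℕ) (A : Multiset ℕ),
  1000 ≤ c → c ≤ n → 1000 * (n + 1) ≤ m → 100000 * m ≤ c ^ 3 → Even D → 16 ≤ D → D ≤ 30 →
  3 * (q + D) ≤ (D + 2) * (n + 2) →
  (n ^ 2 + q) * T m ≤ TT A + (n + 1) * m → TT A ≤ (n ^ 2 + q) * T m + (n + 1) * m →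
  ∀ d v i : ℕ, i ≤ d + 1 → T v < TT A + i → TT A + i ≤ T (v + 1) →
  T (d + 1) ≤ TT A + i + (2 * n + 1 + D) * T m + c * m / 8 + (d + 1) →
  TT A + i + (2 * n + 1 + D) * T m < T (d + 1) + c * m / 8 + (d + 2) →
  4 * (c * m / 8) ≤ v ∧ 2 ≤ v ∧ v + 2 ≤ d ∧
  ∀ k, d ≤ v + k + 2 → v + k ≤ d + 1 →
    PW F (c * m / 8) (Multiset.replicate (2 * n + 1 + D) m) k d

/-! ## Steps -/

/-- UPS: the step which preserves the windows. PROOF. `χ = T (d+1) - TT (A + B)`.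
MAIN CASE: `-(E + d + 2) < χ ≤ E`, `i = 0`, and for `A' = A + replicate i 1` in the next case. Let
`T v < TT A ≤ T (v+1)` (exists as `1 ≤ TT A`), `τ = d - v ≥ 2`, `f = v + 1 ≥ 4E`, `x = T (v+1) - TT A ∈
[0, f)`. `a0, a1, a2 = hF F (v+1) A, hF F v A, hF F (v-1) A` are at most `ph E` of `x + f + 1`, `x`,
`x - f`, and at least these numbers (`HFun.chi_le`); `hF F (v-2) A = 0` as `T (v-1) - TT A =
x - f - v ≤ -E`. `p0, p1, p2 = hN F (Sf 1 k d) B`, `k = τ-1, τ, τ+1` are at most `ph E` of `χ - x`,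
`χ + f - x`, `χ + 2 f - 1 - x` (`(k+1)(d+1) - T k = T (d+1) - T (d-k)`), at least these numbers
(`S_StA`, `low` for all points), and `p0 ≤ p1 ≤ p2`; `hN F (Sf 1 (τ-2) d) B = 0` as
`χ - x - f - 1 ≤ -E`. `S_Row3` and the lemma `arith3` give `hF F d (A + B) ≤ ph E χ`.
CASE `E < χ ≤ E + (d+1)`: `i = χ - E`, `A' = replicate i 1 + A`: `hF F d (i simple points + S) =
hF F d S - i` (`S_NSimple` with `hN_tri`), so `UU F E A'` (`ph E (x - 1) ≥ ph E x - 1`); the main case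
for `A'` gives `hF F d (A' + B) ≤ ph E E = E`, so `hF F d (A + B) ≤ E + i = χ`. CASE `χ > E + (d+1)`:
`d ≥ 1`, induction on `d`: for `d - 1` the number is `χ - (d+1) > E`, so `hF F (d-1) (A+B) ≤
χ - (d+1)`, and `ShghC.hF_succ_le`. CASE `χ ≤ -(E + d + 2)`: the number for `d + 1` is
`χ + d + 2 ≤ -E`; so by induction (upwards, the number is eventually positive; e.g. strong induction on
`TT (A+B) - T (d+1)`) `hF F (d+1) (A+B) = 0`, and `hF F d ≤ hF F (d+1)`. -/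
def S_Ups : Prop := ∀ (F : Type u) [Field F] [CharZero F] (E : ℕ) (A B : Multiset ℕ),
  1 ≤ TT A → UU F E A →
  (∀ d v i : ℕ, i ≤ d + 1 → T v < TT A + i → TT A + i ≤ T (v + 1) →
    T (d + 1) ≤ TT (A + B) + i + E → TT (A + B) + i < T (d + 1) + E + (d + 2) →
    4 * E ≤ v ∧ 2 ≤ v ∧ v + 2 ≤ d ∧ ∀ k, d ≤ v + k + 2 → v + k ≤ d + 1 → PW F E B k d) →
  UU F E (A + B)

/-- XSTEP: the step which gives exactness. PROOF. Let `v` be as in `Al E (TT A)`,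
`x = T (v+1) - TT A ∈ [E, v + 1 - E]`; `T v < TT A ≤ T (v+1)`. `UU`: `hF F v A = x` (lower bound
`HFun.chi_le`), `hF F (v-1) A = 0`. Let `d0` be the least `d` with `TT (A+B) ≤ T (d+1)`;
`T d0 < TT (A+B)` (`TT A ≥ 1`). The hypothesis applies to `d = d0` and to `d = d0 - 1` (`d0 ≥ 2` as
`v + 2 ≤ d0`). `S_XL` with `τ = d - v`, `χ = T (d+1) - TT (A+B)`, `f = v + 1`:
`hN F (Sf 1 (τ-1) d) B ≤ ph E (χ - x)`, `hN F (Sf 1 τ d) B ≤ ph E (χ + f - x)`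
(`(k+1)(d+1) - T k = T (d+1) - T (d-k)`). If `χ ≥ 0` both terms of the maximum are `≤ χ`:
`ph E (χ - x) ≤ χ` because `x ≥ E`, and `x + ph E (χ + f - x) - f = χ` because `χ + f - x ≥ E`. If `χ < 0`
both are `0`: `χ - x ≤ -E`, and `ph E (χ + f - x) ≤ ph E (f - x) = f - x`. `S_GTof`. -/
def S_XStep : Prop := ∀ (F : Type u) [Field F] [CharZero F] (E : ℕ) (A B : Multiset ℕ),
  1 ≤ E → UU F E A → Al E (TT A) →
  (∀ d v : ℕ, T v < TT A → TT A ≤ T (v + 1) → T d < TT (A + B) → TT (A + B) ≤ T (d + 2) →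
    1 ≤ v ∧ v + 2 ≤ d ∧ PW F E B (d - v) d ∧ PW F E B (d - v - 1) d) →
  GT F (A + B)

/-- PATH. PROOF. Induction on `n ≥ c`. `n = c`: `q = 0` and `UU` follows from `GT` (`T (j+1) - TT S`
truncated is `≤ ph E`). Step to `n + 1`, `q'`: `J = n + 1 - c ≥ 1`, `D = 2 (q' / (2 J))`, `q = q' - D`.
With `q' = 2 t`, `D = 2 t'`, `t' = t / J`: `8 ≤ t' ≤ 15`, `16 (J-1) ≤ q ≤ 30 (J-1)` (`t - t' ≥
(J-1) t'`; `t ≤ 15 J`, and if `t' ≤ 14` then `t ≤ J (t'+1) - 1`, `t - t' ≤ (J-1)(t'+1)`),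
`3 q' ≤ (D + 2) (3 J) ≤ (D+2)(n+2)`. `A = C + replicate (n^2 + q - c^2) m`, `B = replicate (2n+1+D) m`,
`S_Ups` with `S_StepW` (`(n^2 + q) T m` differs from `TT A` by at most `c m`); `1 ≤ TT A`. -/
def S_Path : Prop := ∀ (F : Type u) [Field F] [CharZero F] (m c : ℕ) (C : Multiset ℕ),
  1000 ≤ c → 100000 * m ≤ c ^ 3 → GT F C →
  c ^ 2 * T m ≤ TT C + c * m → TT C ≤ c ^ 2 * T m + c * m →
  ∀ n q : ℕ, c ≤ n → 1000 * n ≤ m → 3 * (n - c) ≤ n + 1 → Even q →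
    16 * (n - c) ≤ q → q ≤ 30 * (n - c) →
    UU F (c * m / 8) (C + Multiset.replicate (n ^ 2 + q - c ^ 2) m)

/-- CHOICE: `n + 1` and `a`, `c = 2 a + 1`. PROOF. For `N ≥ 1` let `a = N / 3`, `J N = N - (2a + 1)`;
`J (N+2) ≤ J N + 2`, `3 J N ≤ N + 1`, `3 J N ≥ N - 3`. Take the largest `N` with `N % 2 = s % 2` and
`N^2 + 16 J N ≤ s` (`Nat.findGreatest`); `s < (N+2)^2 + 16 J (N+2)`, and with the parity
`s ≤ N^2 + 4 N + 34 + 16 J N ≤ N^2 + 30 J N` for `N ≥ 72`. `N ≥ 30000`: `(30000+i)^2 + 16 J ≤ s` for the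
`i ∈ {0, 1}` with the right parity. `n = N - 1`, `q = s - N^2`, `n - 2 a = J N`. -/
def S_Choice : Prop := ∀ s : ℕ, 10 ^ 9 ≤ s → ∃ n a q : ℕ, s = (n + 1) ^ 2 + q ∧ Even q ∧
  3 * a ≤ n + 1 ∧ n + 1 ≤ 3 * a + 2 ∧ 16 * (n - 2 * a) ≤ q ∧ q ≤ 30 * (n - 2 * a) ∧
  30000 ≤ n + 1

/-- ALIGN: one of the two ways. `E = (2a+1) m / 8`, `k = 2 a m + a - 1`, `r = 2 a`.
PROOF. `v = (n^2 + q) T m`. Let `T w < v ≤ T (w+1)`. If not `Al E v` then `T (w+1) - v < E` or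
`T (w+1) - v > w + 1 - E`, i.e. `v < T w + E`: in both cases there is `j ∈ {w, w+1}` with
`T j < v + E`, `v < T j + E`. `ρ = r^2 T m - T k = (2 r (2m+1) - r^2) / 8` (that is `a(2m+1)/2 - a^2/2`),
`ρ' = T (k+1) - r^2 T m = k + 1 - ρ = a(2m+1)/2 + a^2/2`. `2 E ≤ ρ`, `ρ' ≤ j - 2 E` (as `j ≥ n m - 2`,
`n ≥ 3a - 1`, `m ≥ 1000 n`). For `K = k`: `TT = v - ρ`, witness `u + 1 = j`: `T j - (v - ρ) =
ρ - (v - T j) ∈ [E, j - E]`. For `K = k + 1`: `TT = v + ρ'`, witness `u + 1 = j + 1`: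
`T (j+1) - (v + ρ') = j + 1 - ρ' - (v - T j) ∈ [E, j + 1 - E]`. -/
def S_Align : Prop := ∀ m n a q : ℕ, 1000 ≤ a → 1000 * n ≤ m → 3 * a ≤ n + 1 → n ≤ 3 * a + 1 →
  Al ((2 * a + 1) * m / 8) ((n ^ 2 + q) * T m) ∨
  (Al ((2 * a + 1) * m / 8) (T (2 * a * m + a - 1) + (n ^ 2 + q - 4 * a ^ 2) * T m) ∧
    Al ((2 * a + 1) * m / 8) (T (2 * a * m + a) + (n ^ 2 + q - 4 * a ^ 2) * T m))

/-- FIN: the numbers. PROOF. `27000 m^3 > s^3 ≥ 10^12 m^2`, so `m > 3.7 * 10^7`, `s ≥ 1.1 * 10^9`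
(`s^3 ≥ 10^12 m^2 > 1.3 * 10^27`). `S_Choice`: `n, a, q`, `c = 2a + 1`. `30 m > s ≥ (n+1)^2` and
`n + 1 ≥ 30000` give `1000 (n+1) ≤ m`. `s ≤ (n+1)^2 + 30 (n - 2a) ≤ (n+1)^2 + 10 (n+1) + 30`, and
`(10^5 m)^2 ≤ s^3 / 100 ≤ c^6` as `c ≥ (2 n - 1)/3`. -/
def S_Fin : Prop := ∀ m s : ℕ, s < 30 * m → 10 ^ 12 * m ^ 2 ≤ s ^ 3 →
  ∃ n a q : ℕ, s = (n + 1) ^ 2 + q ∧ Even q ∧ 3 * a ≤ n + 1 ∧ n + 1 ≤ 3 * a + 2 ∧
  16 * (n - 2 * a) ≤ q ∧ q ≤ 30 * (n - 2 * a) ∧ 30000 ≤ n + 1 ∧ 1000 * (n + 1) ≤ m ∧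
  100000 * m ≤ (2 * a + 1) ^ 3

/-- LAST: the last step for a core `C`. PROOF. `J = n + 1 - c`, `D = 2 (q' / (2J))`, `q = q' - D` as in
`S_Path` (same computations: put them in a common lemma). `A = C + replicate (n^2 + q - c^2) m` has
`UU` by `S_Path`, `B = replicate (2n+1+D) m`, `A + B` = the claim. `S_XStep` with `S_StepW` (`i = 0`;
`T d < TT (A+B) ≤ T (d+2)` gives the bounds for `T (d+1)` as `E ≥ 1`). The hypothesis `Al` is about
`TT A = TT C + (n^2 + q - c^2) T m`, for this `q`. -/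
def S_Last : Prop := ∀ (F : Type u) [Field F] [CharZero F] (m c : ℕ) (C : Multiset ℕ),
  1000 ≤ c → 100000 * m ≤ c ^ 3 → GT F C →
  c ^ 2 * T m ≤ TT C + c * m → TT C ≤ c ^ 2 * T m + c * m →
  ∀ n q : ℕ, c ≤ n → 1000 * (n + 1) ≤ m → 3 * (n + 1 - c) ≤ n + 2 → Even q →
    16 * (n + 1 - c) ≤ q → q ≤ 30 * (n + 1 - c) →
    Al (c * m / 8) (TT C + (n ^ 2 + (q - 2 * (q / (2 * (n + 1 - c)))) - c ^ 2) * T m) →
    GT F (C + Multiset.replicate ((n + 1) ^ 2 + q - c ^ 2) m)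

/-- THE THEOREM. PROOF. `s ≥ 30 m`: `ShghC.mHom`. Otherwise `S_Fin`, `c = 2a + 1 ≤ n`,
`q1 = q - 2 (q / (2 (n + 1 - c)))`, `S_Align` for `n`, `q1`. First case: `S_Last` with
`C = replicate (c^2) m` (`S_Squares`; `TT C = c^2 T m`). Second case, `k = 2am + a - 1`, `K ∈ {k, k+1}`:
`S_Last` with `C = K ::ₘ replicate (4a+1) m` (`S_CoreK`; `c^2 = 4 a^2 + 4 a + 1`; `4 a^2 T m = T k + ρ`,
`0 ≤ ρ ≤ a m + a`, `T (k+1) = 4 a^2 T m + ρ'`, `ρ' ≤ a m + a + a^2 ≤ c m`): `GT F (K ::ₘ replicate (s - 4a^2)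
m)`. For `d ≥ k`: `S_Reduce` with `κ = k`, `A = replicate (s - 4a^2) m`, `B = replicate (4a^2) m`
(`S_Squares`). For `d < k`: `hF F d (A + B) ≤ hF F d B = 0` as `T (d+1) ≤ T k ≤ TT B`. -/
def S_Main : Prop := ∀ (F : Type u) [Field F] [CharZero F] (d m s : ℕ), 1 ≤ m →
  10 ^ 12 * m ^ 2 ≤ s ^ 3 → hF F d (Multiset.replicate s m) = T (d + 1) - s * T m

end ShghHL
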